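import Mathlib

/-!
# MP_f4dda6_al, Q1: Cayley balls in Schreier graphs of Thompson's group `F`

There is a non-confined subgroup `H` of Thompson's group `F` such that for every finite generating
set and for every `K`, for all but finitely many `n` the ball of radius `K n` about the root of the
Schreier graph of `H` contains no copy of the Cayley ball of radius `n`.
-/

set_option autoImplicit false

namespace Pool.Agent.Results.MP_f4dda6_al.NoLinearCopies

/-- Dyadic rationals. -/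
def Dyadic (x : ℝ) : Prop := ∃ (a : ℤ) (n : ℕ), x = a / 2 ^ n

/-- `f` (an increasing homeomorphism of the line) is the identity outside `[0, 1]` and piecewise
linear, with finitely many breakpoints, all of them dyadic, and with slopes integral powers
of `2`. -/
def IsThompson (f : ℝ ≃o ℝ) : Prop :=
  (∀ x ≤ 0, f x = x) ∧ (∀ x, 1 ≤ x → f x = x) ∧
    ∃ B : Finset ℝ, (∀ b ∈ B, Dyadic b) ∧
      ∀ x y, x < y → (∀ b ∈ B, b ≤ x ∨ y ≤ b) →
        ∃ m : ℤ, ∀ z ∈ Set.Icc x y, f z = f x + (2 : ℝ) ^ m * (z - x)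

section dyadic

theorem Dyadic.add {x y : ℝ} (hx : Dyadic x) (hy : Dyadic y) : Dyadic (x + y) := by
  obtain ⟨a, n, rfl⟩ := hx
  obtain ⟨b, m, rfl⟩ := hy
  refine ⟨a * 2 ^ m + b * 2 ^ n, n + m, ?_⟩
  push_cast
  rw [pow_add]
  field_simp

theorem Dyadic.neg {x : ℝ} (hx : Dyadic x) : Dyadic (-x) := by
  obtain ⟨a, n, rfl⟩ := hx
  exact ⟨-a, n, by push_cast; ring⟩

theorem Dyadic.sub {x y : ℝ} (hx : Dyadic x) (hy : Dyadic y) : Dyadic (x - y) := by
  rw [sub_eq_add_neg]; exact hx.add hy.neg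

theorem Dyadic.mul {x y : ℝ} (hx : Dyadic x) (hy : Dyadic y) : Dyadic (x * y) := by
  obtain ⟨a, n, rfl⟩ := hx
  obtain ⟨b, m, rfl⟩ := hy
  refine ⟨a * b, n + m, ?_⟩
  push_cast
  rw [pow_add]
  field_simp

theorem dyadic_int (a : ℤ) : Dyadic a := ⟨a, 0, by simp⟩

theorem dyadic_two_zpow (m : ℤ) : Dyadic ((2 : ℝ) ^ m) := by
  rcases le_or_gt 0 m with h | h
  · refine ⟨2 ^ m.toNat, 0, ?_⟩
    push_cast
    rw [pow_zero, div_one, ← zpow_natCast, Int.toNat_of_nonneg h]
  · refine ⟨1, (-m).toNat, ?_⟩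
    rw [← zpow_natCast (2 : ℝ), Int.toNat_of_nonneg (by omega), zpow_neg]
    simp

theorem dyadic_zero : Dyadic 0 := ⟨0, 0, by simp⟩

end dyadic

section group

theorem mul_ap (f g : ℝ ≃o ℝ) (t : ℝ) : (f * g) t = f (g t) := rfl
theorem one_ap (t : ℝ) : (1 : ℝ ≃o ℝ) t = t := rfl
theorem inv_ap_self (f : ℝ ≃o ℝ) (t : ℝ) : f⁻¹ (f t) = t := f.symm_apply_apply t
theorem ap_inv_self (f : ℝ ≃o ℝ) (t : ℝ) : f (f⁻¹ t) = t := f.apply_symm_apply t

/-- Elements of `F` preserve dyadic rationals. -/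
theorem IsThompson.dyadic {f : ℝ ≃o ℝ} (hf : IsThompson f) {x : ℝ} (hx : Dyadic x) :
    Dyadic (f x) := by
  classical
  obtain ⟨h0, h1, B, hB, hlin⟩ := hf
  have key : ∀ (n : ℕ) (x : ℝ), 0 < x → Dyadic x → (B.filter (fun b => 0 < b ∧ b < x)).card = n →
      Dyadic (f x) := by
    intro n
    induction n using Nat.strong_induction_on with
    | _ n ih =>
      intro x hx0 hx hn
      by_cases hemp : (B.filter (fun b => 0 < b ∧ b < x)) = ∅
      · obtain ⟨m, hm⟩ := hlin 0 x hx0 (by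
          intro b hb
          by_contra hcon
          push Not at hcon
          have : b ∈ B.filter (fun b => 0 < b ∧ b < x) := Finset.mem_filter.mpr ⟨hb, hcon⟩
          rw [hemp] at this
          exact absurd this (Finset.notMem_empty b))
        rw [hm x ⟨hx0.le, le_rfl⟩, h0 0 le_rfl, zero_add, sub_zero]
        exact (dyadic_two_zpow m).mul hx
      · have hne := Finset.nonempty_iff_ne_empty.mpr hemp
        set b := (B.filter (fun b => 0 < b ∧ b < x)).max' hne with hb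
        have hbmem := (B.filter (fun b => 0 < b ∧ b < x)).max'_mem hne
        rw [← hb, Finset.mem_filter] at hbmem
        have hlt : (B.filter (fun c => 0 < c ∧ c < b)).card < n := by
          rw [← hn]
          apply Finset.card_lt_card
          rw [Finset.ssubset_iff_of_subset]
          · exact ⟨b, Finset.mem_filter.mpr hbmem, by simp⟩
          · intro c hc
            rw [Finset.mem_filter] at hc ⊢
            exact ⟨hc.1, hc.2.1, hc.2.2.trans hbmem.2.2⟩
        have hfb := ih _ hlt b hbmem.2.1 (hB b hbmem.1) rfl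
        obtain ⟨m, hm⟩ := hlin b x hbmem.2.2 (by
          intro c hc
          by_contra hcon
          push Not at hcon
          have h3 := (B.filter (fun b => 0 < b ∧ b < x)).le_max' c
            (Finset.mem_filter.mpr ⟨hc, hbmem.2.1.trans hcon.1, hcon.2⟩)
          exact absurd hcon.1 (not_lt.mpr h3))
        rw [hm x ⟨hbmem.2.2.le, le_rfl⟩]
        exact hfb.add ((dyadic_two_zpow m).mul (hx.sub (hB b hbmem.1)))
  rcases le_or_gt x 0 with h | h
  · rw [h0 x h]; exact hx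
  · exact key _ x h hx rfl

/-- Inverses of elements of `F` preserve dyadic rationals. -/
theorem IsThompson.dyadic_inv {f : ℝ ≃o ℝ} (hf : IsThompson f) {y : ℝ} (hy : Dyadic y) :
    Dyadic (f⁻¹ y) := by
  classical
  have hf' := hf
  obtain ⟨h0, h1, B, hB, hlin⟩ := hf
  set x := f⁻¹ y with hx
  have hxy : f x = y := ap_inv_self f y
  rcases le_or_gt x 0 with h | h
  · rw [h0 x h] at hxy; rw [hxy]; exact hy
  · -- the last breakpoint (or `0`) before `x`
    set B' := insert 0 (B.filter (fun b => 0 < b ∧ b < x)) with hB'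
    have hne : B'.Nonempty := ⟨0, Finset.mem_insert_self _ _⟩
    set b := B'.max' hne with hb
    have hbmem := B'.max'_mem hne
    rw [← hb] at hbmem
    have hbx : b < x ∧ Dyadic b := by
      rw [hB', Finset.mem_insert] at hbmem
      rcases hbmem with h3 | h3
      · rw [h3]; exact ⟨h, dyadic_zero⟩
      · rw [Finset.mem_filter] at h3
        exact ⟨h3.2.2, hB b h3.1⟩
    have hb0 : 0 ≤ b := B'.le_max' 0 (Finset.mem_insert_self _ _)
    obtain ⟨m, hm⟩ := hlin b x hbx.1 (by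
      intro c hc
      by_contra hcon
      push Not at hcon
      have h3 := B'.le_max' c (Finset.mem_insert_of_mem
        (Finset.mem_filter.mpr ⟨hc, hb0.trans_lt hcon.1, hcon.2⟩))
      exact absurd hcon.1 (not_lt.mpr h3))
    have h4 := hm x ⟨hbx.1.le, le_rfl⟩
    have h5 : x = b + (2 : ℝ) ^ (-m) * (y - f b) := by
      rw [← hxy, h4, zpow_neg]
      field_simp
      ring
    rw [h5]
    exact hbx.2.add ((dyadic_two_zpow _).mul (hy.sub (hf'.dyadic hbx.2)))

theorem IsThompson.mul {f g : ℝ ≃o ℝ} (hf : IsThompson f) (hg : IsThompson g) :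
    IsThompson (f * g) := by
  classical
  have hg' := hg
  obtain ⟨f0, f1, B, hB, hlin⟩ := hf
  obtain ⟨g0, g1, C, hC, glin⟩ := hg
  refine ⟨fun x hx => by rw [mul_ap, g0 x hx, f0 x hx],
    fun x hx => by rw [mul_ap, g1 x hx, f1 x hx], C ∪ B.image (fun b => g⁻¹ b), ?_, ?_⟩
  · intro b hb
    rw [Finset.mem_union, Finset.mem_image] at hb
    rcases hb with hb | ⟨c, hc, rfl⟩
    · exact hC b hb
    · exact hg'.dyadic_inv (hB c hc)
  · intro x y hxy hb
    obtain ⟨m, hm⟩ := glin x y hxy (fun b hb' => hb b (Finset.mem_union_left _ hb'))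
    obtain ⟨k, hk⟩ := hlin (g x) (g y) (g.strictMono hxy) (by
      intro b hb'
      rcases hb (g⁻¹ b) (Finset.mem_union_right _ (Finset.mem_image_of_mem _ hb')) with h | h
      · left
        have := g.monotone h
        rwa [ap_inv_self] at this
      · right
        have := g.monotone h
        rwa [ap_inv_self] at this)
    refine ⟨k + m, fun z hz => ?_⟩
    rw [mul_ap, mul_ap, hk (g z) ⟨g.monotone hz.1, g.monotone hz.2⟩, hm z hz,
      zpow_add₀ (by norm_num)]
    ring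

theorem IsThompson.inv {f : ℝ ≃o ℝ} (hf : IsThompson f) : IsThompson f⁻¹ := by
  classical
  have hf' := hf
  obtain ⟨f0, f1, B, hB, hlin⟩ := hf
  refine ⟨fun x hx => ?_, fun x hx => ?_, B.image (fun b => f b), ?_, ?_⟩
  · conv_lhs => rw [← f0 x hx]
    exact inv_ap_self f x
  · conv_lhs => rw [← f1 x hx]
    exact inv_ap_self f x
  · intro b hb
    rw [Finset.mem_image] at hb
    obtain ⟨c, hc, rfl⟩ := hb
    exact hf'.dyadic (hB c hc)
  · intro x y hxy hb
    obtain ⟨m, hm⟩ := hlin (f⁻¹ x) (f⁻¹ y) ((f⁻¹).strictMono hxy) (by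
      intro b hb'
      rcases hb (f b) (Finset.mem_image_of_mem _ hb') with h | h
      · left
        have := (f⁻¹).monotone h
        rwa [inv_ap_self] at this
      · right
        have := (f⁻¹).monotone h
        rwa [inv_ap_self] at this)
    refine ⟨-m, fun z hz => ?_⟩
    have h3 := hm (f⁻¹ z) ⟨(f⁻¹).monotone hz.1, (f⁻¹).monotone hz.2⟩
    rw [ap_inv_self, ap_inv_self] at h3
    have h4 : z - x = (2 : ℝ) ^ m * (f⁻¹ z - f⁻¹ x) := by linarith
    rw [h4, zpow_neg, ← mul_assoc, inv_mul_cancel₀ (by positivity)]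
    ring

/-- Thompson's group `F`. -/
def ThF : Subgroup (ℝ ≃o ℝ) where
  carrier := {f | IsThompson f}
  mul_mem' hf hg := hf.mul hg
  one_mem' := ⟨fun _ _ => rfl, fun _ _ => rfl, ∅, by simp, fun x y _ _ =>
    ⟨0, fun z _ => by simp [one_ap]⟩⟩
  inv_mem' hf := hf.inv

end group

section bump

/-- The piecewise linear map `θ_{a,b}` : the standard map `x₀⁻¹` scaled to `[a, b]`. -/
noncomputable def thetaFun (a b x : ℝ) : ℝ :=
  if x ≤ a then x else if x ≤ a + (b - a) / 4 then 2 * x - a else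
    if x ≤ a + (b - a) / 2 then x + (b - a) / 4 else if x ≤ b then (x + b) / 2 else x

/-- Its inverse. -/
noncomputable def thetaInv (a b x : ℝ) : ℝ :=
  if x ≤ a then x else if x ≤ a + (b - a) / 2 then (x + a) / 2 else
    if x ≤ a + 3 * (b - a) / 4 then x - (b - a) / 4 else if x ≤ b then 2 * x - b else x

theorem thetaInv_thetaFun {a b : ℝ} (hab : a < b) (x : ℝ) : thetaInv a b (thetaFun a b x) = x := by
  unfold thetaInv thetaFun
  split_ifs <;> linarith

theorem thetaFun_thetaInv {a b : ℝ} (hab : a < b) (x : ℝ) : thetaFun a b (thetaInv a b x) = x := by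
  unfold thetaInv thetaFun
  split_ifs <;> linarith

theorem thetaFun_mono {a b : ℝ} (hab : a < b) : Monotone (thetaFun a b) := by
  intro x y h
  unfold thetaFun
  split_ifs <;> linarith

theorem thetaInv_mono {a b : ℝ} (hab : a < b) : Monotone (thetaInv a b) := by
  intro x y h
  unfold thetaInv
  split_ifs <;> linarith

/-- `θ_{a,b}` as an order automorphism of the line. -/
noncomputable def theta (a b : ℝ) (hab : a < b) : ℝ ≃o ℝ where
  toFun := thetaFun a b
  invFun := thetaInv a b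
  left_inv := thetaInv_thetaFun hab
  right_inv := thetaFun_thetaInv hab
  map_rel_iff' := by
    intro s t
    constructor
    · intro h
      have := thetaInv_mono hab h
      simpa only [Equiv.coe_fn_mk, thetaInv_thetaFun hab] using this
    · intro h
      exact thetaFun_mono hab h

theorem theta_apply (a b : ℝ) (hab : a < b) (x : ℝ) : theta a b hab x = thetaFun a b x := rfl

theorem th1 {a b : ℝ} (hab : a < b) {x : ℝ} (h : x ≤ a) : theta a b hab x = x := by
  rw [theta_apply, thetaFun, if_pos h]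

theorem th2 {a b : ℝ} (hab : a < b) {x : ℝ} (h : a ≤ x) (h' : x ≤ a + (b - a) / 4) :
    theta a b hab x = 2 * x - a := by
  rw [theta_apply, thetaFun]
  by_cases c : x ≤ a
  · rw [if_pos c]; linarith
  · rw [if_neg c, if_pos h']

theorem th3 {a b : ℝ} (hab : a < b) {x : ℝ} (h : a + (b - a) / 4 ≤ x)
    (h' : x ≤ a + (b - a) / 2) : theta a b hab x = x + (b - a) / 4 := by
  rw [theta_apply, thetaFun, if_neg (by linarith)]
  by_cases c : x ≤ a + (b - a) / 4
  · rw [if_pos c]; linarith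
  · rw [if_neg c, if_pos h']

theorem th4 {a b : ℝ} (hab : a < b) {x : ℝ} (h : a + (b - a) / 2 ≤ x) (h' : x ≤ b) :
    theta a b hab x = (x + b) / 2 := by
  rw [theta_apply, thetaFun, if_neg (by linarith), if_neg (by linarith)]
  by_cases c : x ≤ a + (b - a) / 2
  · rw [if_pos c]; linarith
  · rw [if_neg c, if_pos h']

theorem th5 {a b : ℝ} (hab : a < b) {x : ℝ} (h : b ≤ x) : theta a b hab x = x := by
  rw [theta_apply, thetaFun, if_neg (by linarith), if_neg (by linarith), if_neg (by linarith)]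
  by_cases c : x ≤ b
  · rw [if_pos c]; linarith
  · rw [if_neg c]

theorem theta_mem (a b : ℝ) (hab : a < b) (ha : 0 ≤ a) (hb : b ≤ 1) (da : Dyadic a)
    (db : Dyadic b) : theta a b hab ∈ ThF := by
  refine ⟨fun x hx => th1 hab (by linarith), fun x hx => th5 hab (by linarith),
    {a, a + (b - a) / 4, a + (b - a) / 2, b}, ?_, ?_⟩
  · have h4 : Dyadic ((1 : ℝ) / 4) := ⟨1, 2, by norm_num⟩
    have h2 : Dyadic ((1 : ℝ) / 2) := ⟨1, 1, by norm_num⟩
    intro c hc
    simp only [Finset.mem_insert, Finset.mem_singleton] at hc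
    rcases hc with rfl | rfl | rfl | rfl
    · exact da
    · rw [div_eq_mul_one_div]; exact da.add ((db.sub da).mul h4)
    · rw [div_eq_mul_one_div]; exact da.add ((db.sub da).mul h2)
    · exact db
  · intro x y hxy hb'
    have h1 := hb' a (Finset.mem_insert_self _ _)
    have h2 := hb' (a + (b - a) / 4) (Finset.mem_insert_of_mem (Finset.mem_insert_self _ _))
    have h3 := hb' (a + (b - a) / 2)
      (Finset.mem_insert_of_mem (Finset.mem_insert_of_mem (Finset.mem_insert_self _ _)))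
    have h4 := hb' b (Finset.mem_insert_of_mem (Finset.mem_insert_of_mem
      (Finset.mem_insert_of_mem (Finset.mem_singleton_self _))))
    by_cases c1 : y ≤ a
    · refine ⟨0, fun z hz => ?_⟩
      rw [th1 hab (hz.2.trans c1), th1 hab (hxy.le.trans c1)]
      simp
    have k1 : a ≤ x := h1.resolve_right c1
    by_cases c2 : y ≤ a + (b - a) / 4
    · refine ⟨1, fun z hz => ?_⟩
      rw [th2 hab (k1.trans hz.1) (hz.2.trans c2), th2 hab k1 (hxy.le.trans c2), zpow_one]
      ring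
    have k2 : a + (b - a) / 4 ≤ x := h2.resolve_right c2
    by_cases c3 : y ≤ a + (b - a) / 2
    · refine ⟨0, fun z hz => ?_⟩
      rw [th3 hab (k2.trans hz.1) (hz.2.trans c3), th3 hab k2 (hxy.le.trans c3), zpow_zero]
      ring
    have k3 : a + (b - a) / 2 ≤ x := h3.resolve_right c3
    by_cases c4 : y ≤ b
    · refine ⟨-1, fun z hz => ?_⟩
      rw [th4 hab (k3.trans hz.1) (hz.2.trans c4), th4 hab k3 (hxy.le.trans c4), zpow_neg,
        zpow_one]
      ring
    have k4 : b ≤ x := h4.resolve_right c4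
    refine ⟨0, fun z hz => ?_⟩
    rw [th5 hab (k4.trans hz.1), th5 hab k4, zpow_zero]
    ring

end bump

section growth

/-- Elements of `F` increase nonnegative numbers at most by a constant factor. -/
theorem IsThompson.growth {f : ℝ ≃o ℝ} (hf : IsThompson f) :
    ∃ c : ℕ, ∀ x : ℝ, 0 ≤ x → f x ≤ 2 ^ c * x := by
  classical
  obtain ⟨f0, f1, B, hB, hlin⟩ := hf
  set B' := insert 1 (B.filter (fun b => 0 < b)) with hB'
  have hne : B'.Nonempty := ⟨1, Finset.mem_insert_self _ _⟩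
  set b := B'.min' hne with hb
  have hbmem := B'.min'_mem hne
  rw [← hb] at hbmem
  have hb0 : 0 < b := by
    rw [hB', Finset.mem_insert] at hbmem
    rcases hbmem with h3 | h3
    · rw [h3]; norm_num
    · exact (Finset.mem_filter.mp h3).2
  have hb1 : b ≤ 1 := B'.min'_le 1 (Finset.mem_insert_self _ _)
  obtain ⟨m, hm⟩ := hlin 0 b hb0 (by
    intro c hc
    by_contra hcon
    push Not at hcon
    have h3 := B'.min'_le c (Finset.mem_insert_of_mem (Finset.mem_filter.mpr ⟨hc, hcon.1⟩))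
    exact absurd hcon.2 (not_lt.mpr h3))
  obtain ⟨c, hc⟩ := pow_unbounded_of_one_lt ((2 : ℝ) ^ m + 1 / b) (by norm_num : (1 : ℝ) < 2)
  refine ⟨c, fun x hx => ?_⟩
  have hm0 : 0 < (2 : ℝ) ^ m := by positivity
  have hib : 0 < 1 / b := by positivity
  have hcx : ((2 : ℝ) ^ m + 1 / b) * x ≤ 2 ^ c * x := mul_le_mul_of_nonneg_right hc.le hx
  rcases le_total x b with h | h
  · rw [hm x ⟨hx, h⟩, f0 0 le_rfl, zero_add, sub_zero]
    nlinarith
  · have h2 : f x ≤ max x 1 := by
      have := f.monotone (le_max_left x 1)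
      rwa [f1 _ (le_max_right x 1)] at this
    have h3 : max x 1 ≤ (1 / b) * x := by
      have h4 : 1 ≤ 1 / b := by rw [le_div_iff₀ hb0]; linarith
      have h5 : 1 ≤ (1 / b) * x := by
        rw [one_div, inv_mul_eq_div, le_div_iff₀ hb0]; linarith
      apply max_le _ h5
      nlinarith
    nlinarith

end growth

section graphs

variable {G : Type} [Group G]

/-- The vertices of the Schreier graph: the right cosets of `H`. -/
abbrev Vert (H : Subgroup G) : Type := Quotient (QuotientGroup.rightRel H)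

/-- The right coset `H g`. -/
def coset (H : Subgroup G) (g : G) : Vert H := Quotient.mk _ g

/-- The edges labelled `s`: from `H g` to `H g s`. -/
def Edge (H : Subgroup G) (s : G) (v w : Vert H) : Prop :=
  ∃ g, v = coset H g ∧ w = coset H (g * s)

/-- The ball of radius `r` about `v` in the Schreier graph, with respect to the graph distance
ignoring orientation. -/
def Ball (S : Set G) (H : Subgroup G) (v : Vert H) (r : ℕ) : Set (Vert H) :=
  {w | ∃ (m : ℕ) (p : ℕ → Vert H), m ≤ r ∧ p 0 = v ∧ p m = w ∧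
    ∀ i < m, ∃ s ∈ S, Edge H s (p i) (p (i + 1)) ∨ Edge H s (p (i + 1)) (p i)}

/-- The balls of radius `n` about `v` and `v'` are isomorphic as rooted labelled graphs. -/
def BallIso (S : Set G) (H : Subgroup G) (v : Vert H) (H' : Subgroup G) (v' : Vert H') (n : ℕ) :
    Prop :=
  ∃ φ : Ball S H v n ≃ Ball S H' v' n, (∀ x, x.1 = v → (φ x).1 = v') ∧
    ∀ s ∈ S, ∀ x y, Edge H s x.1 y.1 ↔ Edge H' s (φ x).1 (φ y).1

/-- The ball of radius `R` about the root contains a copy of the Cayley ball of radius `n`. -/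
def HasCopy (S : Set G) (H : Subgroup G) (n R : ℕ) : Prop :=
  ∃ v : Vert H, Ball S H v n ⊆ Ball S H (coset H 1) R ∧ BallIso S ⊥ (coset ⊥ 1) H v n

/-- `H` is confined. -/
def Confined (H : Subgroup G) : Prop :=
  ∃ P : Finset G, 1 ∉ P ∧ ∀ g : G, ∃ p ∈ P, ∃ h ∈ H, p = g * h * g⁻¹

/-- `|g| ≤ n` in the word length with respect to `S`. -/
def LenLE (S : Set G) (g : G) (n : ℕ) : Prop :=
  ∃ l : List G, (∀ s ∈ l, s ∈ S ∨ s⁻¹ ∈ S) ∧ l.length ≤ n ∧ l.prod = g

theorem LenLE.mono {S : Set G} {g : G} {m n : ℕ} (h : LenLE S g m) (hmn : m ≤ n) :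
    LenLE S g n := by
  obtain ⟨l, h1, h2, h3⟩ := h
  exact ⟨l, h1, h2.trans hmn, h3⟩

theorem LenLE.mul {S : Set G} {g h : G} {m n : ℕ} (hg : LenLE S g m) (hh : LenLE S h n) :
    LenLE S (g * h) (m + n) := by
  obtain ⟨l, h1, h2, h3⟩ := hg
  obtain ⟨l', h1', h2', h3'⟩ := hh
  refine ⟨l ++ l', ?_, ?_, ?_⟩
  · intro s hs
    rw [List.mem_append] at hs
    rcases hs with hs | hs
    · exact h1 s hs
    · exact h1' s hs
  · rw [List.length_append]; omega
  · rw [List.prod_append, h3, h3']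

theorem LenLE.inv {S : Set G} {g : G} {m : ℕ} (hg : LenLE S g m) : LenLE S g⁻¹ m := by
  obtain ⟨l, h1, h2, h3⟩ := hg
  refine ⟨(l.map (·⁻¹)).reverse, ?_, ?_, ?_⟩
  · intro s hs
    rw [List.mem_reverse, List.mem_map] at hs
    obtain ⟨t, ht, rfl⟩ := hs
    rw [inv_inv]
    exact (h1 t ht).symm
  · simpa using h2
  · rw [← h3, List.prod_inv_reverse]

theorem exists_lenLE {S : Set G} (hS : Subgroup.closure S = ⊤) (g : G) : ∃ n, LenLE S g n := by
  have hg : g ∈ Submonoid.closure (S ∪ S⁻¹) := by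
    rw [← Subgroup.closure_toSubmonoid, hS]; exact Subgroup.mem_top g
  obtain ⟨l, hl, hx⟩ := Submonoid.exists_list_of_mem_closure hg
  exact ⟨l.length, l, fun s hs => hl s hs, le_rfl, hx⟩

theorem coset_eq_iff {H : Subgroup G} {g h : G} : coset H g = coset H h ↔ h * g⁻¹ ∈ H := by
  unfold coset
  rw [Quotient.eq, QuotientGroup.rightRel_apply]

theorem edge_forward {H : Subgroup G} {s g : G} {w : Vert H} (h : Edge H s (coset H g) w) :
    w = coset H (g * s) := by
  obtain ⟨g', h1, h2⟩ := h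
  rw [h2]
  rw [coset_eq_iff] at h1 ⊢
  have : g * s * (g' * s)⁻¹ = (g' * g⁻¹)⁻¹ := by group
  rw [this]
  exact H.inv_mem h1

theorem edge_backward {H : Subgroup G} {s g : G} {w : Vert H} (h : Edge H s w (coset H g)) :
    w = coset H (g * s⁻¹) := by
  obtain ⟨g', h1, h2⟩ := h
  rw [h1]
  rw [coset_eq_iff] at h2 ⊢
  have : g * s⁻¹ * g'⁻¹ = (g' * s * g⁻¹)⁻¹ := by group
  rw [this]
  exact H.inv_mem h2

theorem mem_ball {S : Set G} {H : Subgroup G} {v : Vert H} {r : ℕ}
    (h : v ∈ Ball S H (coset H 1) r) : ∃ g, v = coset H g ∧ LenLE S g r := by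
  obtain ⟨m, p, hm, h0, hpm, hp⟩ := h
  have key : ∀ i ≤ m, ∃ g, p i = coset H g ∧ LenLE S g i := by
    intro i
    induction i with
    | zero => intro _; exact ⟨1, h0, [], by simp, by simp, by simp⟩
    | succ i ih =>
      intro hi
      obtain ⟨g, h1, h2⟩ := ih (by omega)
      obtain ⟨s, hs, h3 | h3⟩ := hp i (by omega)
      · rw [h1] at h3
        exact ⟨g * s, edge_forward h3, h2.mul ⟨[s], by simp [hs], by simp, by simp⟩⟩
      · rw [h1] at h3
        exact ⟨g * s⁻¹, edge_backward h3, h2.mul ⟨[s⁻¹], by simp [hs], by simp, by simp⟩⟩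
  obtain ⟨g, h1, h2⟩ := key m le_rfl
  exact ⟨g, by rw [← hpm, h1], h2.mono hm⟩

theorem ball_mem {S : Set G} {H : Subgroup G} {g k : G} {n : ℕ} (h : LenLE S k n) :
    coset H (g * k) ∈ Ball S H (coset H g) n := by
  obtain ⟨l, h1, h2, h3⟩ := h
  refine ⟨l.length, fun i => coset H (g * (l.take i).prod), h2, by simp, by simp [h3], ?_⟩
  intro i hi
  have e : (l.take (i + 1)).prod = (l.take i).prod * l[i] := by
    rw [List.prod_take_succ]
  rcases h1 l[i] (List.getElem_mem hi) with h4 | h4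
  · refine ⟨l[i], h4, Or.inl ⟨_, rfl, ?_⟩⟩
    show coset H (g * (l.take (i + 1)).prod) = _
    rw [e, mul_assoc]
  · refine ⟨l[i]⁻¹, h4, Or.inr ⟨_, rfl, ?_⟩⟩
    show coset H (g * (l.take i).prod) = coset H (g * (l.take (i + 1)).prod * l[i]⁻¹)
    rw [e]
    congr 1
    group

/-- In a copy of the Cayley ball there are no short relations. -/
theorem HasCopy.no_relation {S : Set G} {H : Subgroup G} {n R : ℕ} (h : HasCopy S H n R) :
    ∃ g, LenLE S g R ∧ ∀ k, LenLE S k n → g * k * g⁻¹ ∈ H → k = 1 := by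
  obtain ⟨v, hv, φ, hφ0, hφ⟩ := h
  have hvR : v ∈ Ball S H (coset H 1) R := hv ⟨0, fun _ => v, Nat.zero_le _, rfl, rfl, by simp⟩
  obtain ⟨g, rfl, hg⟩ := mem_ball hvR
  refine ⟨g, hg, fun k hk hkH => ?_⟩
  obtain ⟨l, h1, h2, h3⟩ := hk
  have hmem : ∀ i, coset (⊥ : Subgroup G) (l.take i).prod ∈ Ball S ⊥ (coset ⊥ 1) n := by
    intro i
    have : LenLE S (l.take i).prod n := ⟨l.take i, fun s hs => h1 s (List.mem_of_mem_take hs),
      by rw [List.length_take]; omega, rfl⟩
    have h4 := ball_mem (S := S) (H := ⊥) (g := 1) this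
    rwa [one_mul] at h4
  have key : ∀ i ≤ l.length, (φ ⟨_, hmem i⟩).1 = coset H (g * (l.take i).prod) := by
    intro i
    induction i with
    | zero =>
      intro _
      rw [hφ0 _ (by simp)]
      simp
    | succ i ih =>
      intro hi
      have h4 := ih (by omega)
      have e : (l.take (i + 1)).prod = (l.take i).prod * l[i] := by
        rw [List.prod_take_succ]
      rcases h1 l[i] (List.getElem_mem hi) with h5 | h5
      · have h6 : Edge (⊥ : Subgroup G) l[i] (coset ⊥ (l.take i).prod)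
          (coset ⊥ (l.take (i + 1)).prod) := ⟨_, rfl, by rw [e]⟩
        have h7 := (hφ l[i] h5 ⟨_, hmem i⟩ ⟨_, hmem (i + 1)⟩).mp h6
        rw [h4] at h7
        rw [edge_forward h7, e, mul_assoc]
      · have h6 : Edge (⊥ : Subgroup G) l[i]⁻¹ (coset ⊥ (l.take (i + 1)).prod)
          (coset ⊥ (l.take i).prod) := ⟨_, rfl, by rw [e]; congr 1; group⟩
        have h7 := (hφ l[i]⁻¹ h5 ⟨_, hmem (i + 1)⟩ ⟨_, hmem i⟩).mp h6
        rw [h4] at h7
        rw [edge_backward h7, e, inv_inv, mul_assoc]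
  have h8 := key l.length le_rfl
  have h9 := key 0 (Nat.zero_le _)
  have h10 : coset H (g * (l.take l.length).prod) = coset H (g * (l.take 0).prod) := by
    rw [List.take_length, h3, List.take_zero, List.prod_nil, mul_one, coset_eq_iff]
    have : g * (g * k)⁻¹ = (g * k * g⁻¹)⁻¹ := by group
    rw [this]
    exact H.inv_mem hkH
  rw [h10, ← h9] at h8
  have h11 := φ.injective (Subtype.ext h8)
  have h12 := congrArg Subtype.val h11
  simp only [List.take_length, h3, List.take_zero, List.prod_nil] at h12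
  rw [coset_eq_iff, one_mul, Subgroup.mem_bot, inv_eq_one] at h12
  exact h12

end graphs

section shorts

theorem dyadic_half : Dyadic (1 / 2) := ⟨1, 1, by norm_num⟩
theorem dyadic_quarter : Dyadic (1 / 4) := ⟨1, 2, by norm_num⟩
theorem dyadic_three_quarters : Dyadic (3 / 4) := ⟨3, 2, by norm_num⟩
theorem dyadic_one : Dyadic 1 := ⟨1, 0, by norm_num⟩

/-- Maps `[1/2, 3/4]` onto its left half. -/
noncomputable def e0 : ThF :=
  ⟨(theta (1 / 2) 1 (by norm_num))⁻¹, ThF.inv_mem (theta_mem _ _ _ (by norm_num) (by norm_num)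
    dyadic_half dyadic_one)⟩

/-- Maps `[1/2, 3/4]` onto its right half. -/
noncomputable def e1 : ThF :=
  ⟨theta (1 / 4) (3 / 4) (by norm_num), theta_mem _ _ _ (by norm_num) (by norm_num)
    dyadic_quarter dyadic_three_quarters⟩

/-- An element supported in `[1/2, 3/4]`. -/
noncomputable def kap : ThF :=
  ⟨theta (1 / 2) (3 / 4) (by norm_num), theta_mem _ _ _ (by norm_num) (by norm_num)
    dyadic_half dyadic_three_quarters⟩

/-- The element `x₀⁻¹`. -/
noncomputable def ff : ThF :=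
  ⟨theta 0 1 (by norm_num), theta_mem _ _ _ le_rfl le_rfl dyadic_zero dyadic_one⟩

theorem e0_maps {x : ℝ} (h : 1 / 2 < x) (h' : x < 3 / 4) :
    1 / 2 < e0.1 x ∧ e0.1 x < 5 / 8 := by
  have h1 : e0.1 x = (x + 1 / 2) / 2 := by
    show (theta (1 / 2) 1 (by norm_num))⁻¹ x = _
    have h2 : theta (1 / 2) 1 (by norm_num) ((x + 1 / 2) / 2) = x := by
      rw [th2 (by norm_num) (by linarith) (by linarith)]
      ring
    conv_lhs => rw [← h2]
    exact inv_ap_self _ _
  rw [h1]
  constructor <;> linarith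

theorem e1_maps {x : ℝ} (h : 1 / 2 < x) (h' : x < 3 / 4) :
    5 / 8 < e1.1 x ∧ e1.1 x < 3 / 4 := by
  have h1 : e1.1 x = (x + 3 / 4) / 2 := by
    show theta (1 / 4) (3 / 4) (by norm_num) x = _
    rw [th4 (by norm_num) (by linarith) (by linarith)]
  rw [h1]
  constructor <;> linarith

theorem kap_fix {x : ℝ} (h : ¬ (1 / 2 < x ∧ x < 3 / 4)) : kap.1 x = x := by
  show theta (1 / 2) (3 / 4) (by norm_num) x = x
  rcases le_or_gt x (1 / 2) with h1 | h1
  · exact th1 _ h1
  · exact th5 _ (not_lt.mp (fun h2 => h ⟨h1, h2⟩))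

theorem kap_ne_one : kap ≠ 1 := by
  intro h
  have h1 : kap.1 (5 / 8) = 5 / 8 := by rw [h]; rfl
  have h2 : kap.1 (5 / 8) = (5 / 8 + 3 / 4) / 2 := th4 (by norm_num) (by norm_num) (by norm_num)
  rw [h2] at h1
  norm_num at h1

theorem smul_ap (g h : ThF) (x : ℝ) : (g * h).1 x = g.1 (h.1 x) := rfl
theorem sinv_ap (g : ThF) (x : ℝ) : (g⁻¹).1 (g.1 x) = x := inv_ap_self g.1 x
theorem sap_inv (g : ThF) (x : ℝ) : g.1 ((g⁻¹).1 x) = x := ap_inv_self g.1 x

/-- Pigeonhole among the `2^d` dyadic subintervals of `[1/2, 3/4]`. -/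
theorem pigeon {S : Set ThF} {E : ℕ} (h0 : LenLE S e0 E) (h1 : LenLE S e1 E) (d : ℕ) :
    ∀ T : Finset ℝ, T.card < 2 ^ d → ∃ h : ThF, LenLE S h (d * E) ∧
      ∀ x, 1 / 2 < x → x < 3 / 4 → (1 / 2 < h.1 x ∧ h.1 x < 3 / 4) ∧ h.1 x ∉ T := by
  classical
  induction d with
  | zero =>
    intro T hT
    have hT0 : T = ∅ := by
      rw [pow_zero, Nat.lt_one_iff, Finset.card_eq_zero] at hT
      exact hT
    refine ⟨1, ⟨[], by simp, by simp, by simp⟩, fun x hx hx' => ⟨⟨hx, hx'⟩, ?_⟩⟩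
    rw [hT0]
    exact Finset.notMem_empty _
  | succ d ih =>
    intro T hT
    have step : ∀ e : ThF, LenLE S e E →
        (∀ x, 1 / 2 < x → x < 3 / 4 → 1 / 2 < e.1 x ∧ e.1 x < 3 / 4) →
        (T.filter (fun t => 1 / 2 < (e⁻¹).1 t ∧ (e⁻¹).1 t < 3 / 4)).card < 2 ^ d →
        ∃ h : ThF, LenLE S h ((d + 1) * E) ∧
        ∀ x, 1 / 2 < x → x < 3 / 4 → (1 / 2 < h.1 x ∧ h.1 x < 3 / 4) ∧ h.1 x ∉ T := by
      intro e he hmaps hcard
      obtain ⟨h, hh1, hh2⟩ := ih ((T.filter (fun t => 1 / 2 < (e⁻¹).1 t ∧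
        (e⁻¹).1 t < 3 / 4)).image (fun t => (e⁻¹).1 t)) (Finset.card_image_le.trans_lt hcard)
      refine ⟨e * h, ?_, ?_⟩
      · have := he.mul hh1
        rwa [show E + d * E = (d + 1) * E by ring] at this
      · intro x hx hx'
        obtain ⟨h3, h4⟩ := hh2 x hx hx'
        rw [smul_ap]
        refine ⟨hmaps _ h3.1 h3.2, fun hmem => h4 ?_⟩
        rw [Finset.mem_image]
        refine ⟨e.1 (h.1 x), ?_, sinv_ap e _⟩
        rw [Finset.mem_filter, sinv_ap]
        exact ⟨hmem, h3⟩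
    by_cases hc : (T.filter (fun t => 1 / 2 < (e0⁻¹).1 t ∧ (e0⁻¹).1 t < 3 / 4)).card < 2 ^ d
    · exact step e0 h0 (fun x hx hx' => by
        have := e0_maps hx hx'
        constructor <;> linarith [this.1, this.2]) hc
    · apply step e1 h1 (fun x hx hx' => by
        have := e1_maps hx hx'
        constructor <;> linarith [this.1, this.2])
      have hdisj : Disjoint (T.filter (fun t => 1 / 2 < (e0⁻¹).1 t ∧ (e0⁻¹).1 t < 3 / 4))
          (T.filter (fun t => 1 / 2 < (e1⁻¹).1 t ∧ (e1⁻¹).1 t < 3 / 4)) := by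
        rw [Finset.disjoint_left]
        intro t ht ht'
        rw [Finset.mem_filter] at ht ht'
        have a1 := e0_maps ht.2.1 ht.2.2
        have a2 := e1_maps ht'.2.1 ht'.2.2
        rw [sap_inv] at a1 a2
        linarith [a1.2, a2.1]
      have hsum := Finset.card_union_of_disjoint hdisj
      have hle : (T.filter (fun t => 1 / 2 < (e0⁻¹).1 t ∧ (e0⁻¹).1 t < 3 / 4) ∪
          T.filter (fun t => 1 / 2 < (e1⁻¹).1 t ∧ (e1⁻¹).1 t < 3 / 4)).card ≤ T.card :=
        Finset.card_le_card (Finset.union_subset (Finset.filter_subset _ _)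
          (Finset.filter_subset _ _))
      rw [pow_succ] at hT
      omega

theorem nonneg_of {g : ThF} {x : ℝ} (hx : 0 ≤ x) : 0 ≤ g.1 x := by
  have h := g.1.monotone hx
  rwa [g.2.1 0 le_rfl] at h

/-- Uniform growth bound. -/
theorem growth_word {S : Set ThF} (hS : S.Finite) :
    ∃ c : ℕ, ∀ (n : ℕ) (g : ThF), LenLE S g n → ∀ x : ℝ, 0 ≤ x → g.1 x ≤ 2 ^ (c * n) * x := by
  classical
  have hfin : (S ∪ S⁻¹).Finite := hS.union hS.inv
  have hc : ∀ᶠ c : ℕ in Filter.atTop, ∀ s ∈ hfin.toFinset, ∀ x : ℝ, 0 ≤ x → s.1 x ≤ 2 ^ c * x := by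
    rw [Filter.eventually_all_finset]
    intro s _
    obtain ⟨c, hc⟩ := IsThompson.growth s.2
    filter_upwards [Filter.eventually_ge_atTop c] with c' hc' x hx
    refine (hc x hx).trans (mul_le_mul_of_nonneg_right ?_ hx)
    exact pow_le_pow_right₀ (by norm_num) hc'
  obtain ⟨c, hc⟩ := hc.exists
  refine ⟨c, ?_⟩
  rintro n g ⟨l, h1, h2, rfl⟩ x hx
  have key : ∀ l : List ThF, (∀ s ∈ l, s ∈ S ∨ s⁻¹ ∈ S) → l.prod.1 x ≤ 2 ^ (c * l.length) * x := by
    intro l
    induction l with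
    | nil => intro _; simp [one_ap]
    | cons s l ih =>
      intro hl
      rw [List.prod_cons, smul_ap]
      have h3 := ih (fun t ht => hl t (List.mem_cons_of_mem _ ht))
      have h4 := hc s (by
        rw [Set.Finite.mem_toFinset]
        exact hl s List.mem_cons_self) (l.prod.1 x) (nonneg_of hx)
      refine h4.trans ?_
      rw [List.length_cons, Nat.mul_succ, pow_add]
      have h5 : (0 : ℝ) < 2 ^ c := by positivity
      nlinarith
  refine (key l h1).trans (mul_le_mul_of_nonneg_right ?_ hx)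
  exact pow_le_pow_right₀ (by norm_num) (Nat.mul_le_mul_left _ h2)

theorem exp_beats (C : ℕ) : ∃ L0, ∀ L ≥ L0, C * (L + 1) < 2 ^ L := by
  refine ⟨4 * C + 4, fun L hL => ?_⟩
  have h1 : 2 ^ (2 * (L / 2)) ≤ 2 ^ L := Nat.pow_le_pow_right (by norm_num) (by omega)
  have h2 : L / 2 + 1 ≤ 2 ^ (L / 2) := Nat.lt_two_pow_self
  have h3 : (L / 2 + 1) * (L / 2 + 1) ≤ 2 ^ (2 * (L / 2)) := by
    rw [two_mul, pow_add]
    exact Nat.mul_le_mul h2 h2
  have h4 : C * (L + 1) ≤ (2 * C) * (L / 2 + 1) := by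
    have : L + 1 ≤ 2 * (L / 2 + 1) := by omega
    calc C * (L + 1) ≤ C * (2 * (L / 2 + 1)) := Nat.mul_le_mul_left _ this
      _ = (2 * C) * (L / 2 + 1) := by ring
  have h5 : (2 * C) * (L / 2 + 1) < (L / 2 + 1) * (L / 2 + 1) :=
    Nat.mul_lt_mul_of_pos_right (by omega) (by omega)
  omega

theorem choose_depth (A E E' : ℕ) : ∃ n0, ∀ n ≥ n0, ∃ d,
    (A * n + 1) * (A * n + 1) < 2 ^ d ∧ d * E + E' + d * E ≤ n := by
  obtain ⟨L0, hL0⟩ := exp_beats (A * (4 * E + E') + 1)
  refine ⟨4 * E * (L0 + 1) + E', fun n hn => ?_⟩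
  set L := Nat.log 2 (A * n + 1) with hL
  have h1 : A * n + 1 < 2 ^ (L + 1) := Nat.lt_pow_succ_log_self (by norm_num) _
  have h2 : 2 ^ L ≤ A * n + 1 := Nat.pow_log_le_self 2 (by omega)
  refine ⟨2 * (L + 1), ?_, ?_⟩
  · rw [two_mul, pow_add]
    exact Nat.mul_lt_mul'' h1 h1
  · by_contra hcon
    push Not at hcon
    have h3 : n < (4 * E + E') * (L + 1) := by nlinarith
    have h4 : L0 ≤ L := by
      by_contra h5
      push Not at h5
      have h6 : 4 * E * (L + 1) ≤ 4 * E * (L0 + 1) := Nat.mul_le_mul_left _ (by omega)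
      nlinarith
    have h7 := hL0 L h4
    have h8 : A * n ≤ A * ((4 * E + E') * (L + 1)) := Nat.mul_le_mul_left _ h3.le
    nlinarith

end shorts

section subgroup

/-- The number `k / 2^(i + 1 + 2^i)`. -/
noncomputable def sig (i k : ℕ) : ℝ := k / 2 ^ (i + 1 + 2 ^ i)

/-- The set of points whose stabilizer is the example. -/
def Sig : Set ℝ := {x | ∃ i k : ℕ, 0 < k ∧ k ≤ 2 ^ i ∧ x = sig i k}

/-- The example: the pointwise stabilizer of `Sig`. -/
def HH : Subgroup ThF where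
  carrier := {h | ∀ x ∈ Sig, h.1 x = x}
  mul_mem' := by
    intro a b ha hb x hx
    rw [smul_ap, hb x hx, ha x hx]
  one_mem' := fun _ _ => rfl
  inv_mem' := by
    intro a ha x hx
    have h1 := ha x hx
    conv_lhs => rw [← h1]
    exact sinv_ap a x

theorem mem_HH {h : ThF} : h ∈ HH ↔ ∀ x ∈ Sig, h.1 x = x := Iff.rfl

theorem sig_big {i k m : ℕ} (hk : k ≤ 2 ^ i) (h : (1 : ℝ) / 2 < 2 ^ m * sig i k) :
    i < m + 1 ∧ k < m + 1 := by
  have h1 : sig i k ≤ 1 / 2 ^ (1 + 2 ^ i) := by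
    unfold sig
    rw [show i + 1 + 2 ^ i = i + (1 + 2 ^ i) by ring, pow_add, div_le_div_iff₀ (by positivity)
      (by positivity)]
    have : (k : ℝ) ≤ 2 ^ i := by exact_mod_cast hk
    have h2 : (0 : ℝ) < 2 ^ (1 + 2 ^ i) := by positivity
    nlinarith
  have h2 : (1 : ℝ) / 2 < 2 ^ m * (1 / 2 ^ (1 + 2 ^ i)) :=
    h.trans_le (mul_le_mul_of_nonneg_left h1 (by positivity))
  have h3 : (2 : ℝ) ^ (2 ^ i) < 2 ^ m := by
    rw [pow_add, pow_one] at h2
    have h4 : (0 : ℝ) < 2 ^ (2 ^ i) := by positivity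
    rw [mul_one_div, div_lt_div_iff₀ (by norm_num) (by positivity)] at h2
    linarith
  have h5 : 2 ^ i < m := by
    have := (pow_lt_pow_iff_right₀ (by norm_num : (1 : ℝ) < 2)).mp h3
    exact this
  have h6 : i < 2 ^ i := Nat.lt_two_pow_self
  constructor <;> omega

/-- In every far translate there are short relations. -/
theorem short_relation {S : Set ThF} (hS : S.Finite) (hgen : Subgroup.closure S = ⊤) (K : ℕ) :
    ∃ n0, ∀ n ≥ n0, ∀ g, LenLE S g (K * n) → ∃ k, k ≠ 1 ∧ LenLE S k n ∧ g * k * g⁻¹ ∈ HH := by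
  classical
  obtain ⟨E1, hE1⟩ := exists_lenLE hgen e0
  obtain ⟨E2, hE2⟩ := exists_lenLE hgen e1
  obtain ⟨E', hE'⟩ := exists_lenLE hgen kap
  set E := max E1 E2 with hE
  have h0 : LenLE S e0 E := hE1.mono (le_max_left _ _)
  have h1 : LenLE S e1 E := hE2.mono (le_max_right _ _)
  obtain ⟨c, hc⟩ := growth_word hS
  obtain ⟨n0, hn0⟩ := choose_depth (c * K) E E'
  refine ⟨n0, fun n hn g hg => ?_⟩
  obtain ⟨d, hd1, hd2⟩ := hn0 n hn
  set M := c * (K * n) + 1 with hM
  set T : Finset ℝ := ((Finset.range M ×ˢ Finset.range M).image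
    (fun q : ℕ × ℕ => (g⁻¹).1 (sig q.1 q.2))) with hT
  have hTcard : T.card < 2 ^ d := by
    refine (Finset.card_image_le).trans_lt ?_
    rw [Finset.card_product, Finset.card_range]
    have : M = c * K * n + 1 := by rw [hM]; ring
    rw [this]
    exact hd1
  obtain ⟨h, hh1, hh2⟩ := pigeon h0 h1 d T hTcard
  refine ⟨h * kap * h⁻¹, ?_, ?_, ?_⟩
  · intro h3
    apply kap_ne_one
    have : kap = h⁻¹ * (h * kap * h⁻¹) * h := by group
    rw [this, h3]
    group
  · exact ((hh1.mul hE').mul hh1.inv).mono hd2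
  · rw [mem_HH]
    rintro _ ⟨i, k, hk0, hk, rfl⟩
    rw [smul_ap, smul_ap]
    have hfix : (h * kap * h⁻¹).1 ((g⁻¹).1 (sig i k)) = (g⁻¹).1 (sig i k) := by
      rw [smul_ap, smul_ap]
      set y := (g⁻¹).1 (sig i k) with hy
      by_cases hcase : 1 / 2 < (h⁻¹).1 y ∧ (h⁻¹).1 y < 3 / 4
      · exfalso
        obtain ⟨h4, h5⟩ := hh2 _ hcase.1 hcase.2
        rw [sap_inv] at h4 h5
        apply h5
        have hsig : 0 ≤ sig i k := by unfold sig; positivity
        have h6 := hc (K * n) g⁻¹ hg.inv (sig i k) hsig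
        have h7 := sig_big hk (h4.1.trans_le h6)
        rw [hT, Finset.mem_image]
        exact ⟨(i, k), Finset.mem_product.mpr ⟨Finset.mem_range.mpr h7.1,
          Finset.mem_range.mpr h7.2⟩, rfl⟩
      · rw [kap_fix hcase, sap_inv]
    rw [hfix, sap_inv]

/-- Dyadic rationals are dense. -/
theorem exists_dyadic {u v : ℝ} (huv : u < v) : ∃ y, Dyadic y ∧ u < y ∧ y < v := by
  obtain ⟨n, hn⟩ := pow_unbounded_of_one_lt (1 / (v - u)) (by norm_num : (1 : ℝ) < 2)
  have h0 : 0 < v - u := sub_pos.mpr huv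
  have hp : (0 : ℝ) < 2 ^ n := by positivity
  have h1 : 1 < 2 ^ n * (v - u) := by
    rw [div_lt_iff₀ h0] at hn
    exact hn
  refine ⟨((⌊u * 2 ^ n⌋ + 1 : ℤ) : ℝ) / 2 ^ n, ⟨_, n, rfl⟩, ?_, ?_⟩
  · rw [lt_div_iff₀ hp]
    push_cast
    exact Int.lt_floor_add_one _
  · rw [div_lt_iff₀ hp]
    push_cast
    have := Int.floor_le (u * 2 ^ n)
    nlinarith

theorem exists_moved {p : ThF} (hp : p ≠ 1) : ∃ x, Dyadic x ∧ 0 < x ∧ x < 1 ∧ p.1 x ≠ x := by
  by_contra hcon
  push Not at hcon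
  apply hp
  apply Subtype.ext
  ext x
  show p.1 x = x
  rcases le_or_gt x 0 with h | h
  · exact p.2.1 x h
  rcases le_or_gt 1 x with h' | h'
  · exact p.2.2.1 x h'
  rcases lt_trichotomy (p.1 x) x with h3 | h3 | h3
  · exfalso
    have hp0 : 0 < p.1 x := by
      have := p.1.strictMono h
      rwa [p.2.1 0 le_rfl] at this
    obtain ⟨y, hy, h4, h5⟩ := exists_dyadic h3
    have h6 := hcon y hy (hp0.trans h4) (h5.trans h')
    have h7 := p.1.monotone h5.le
    rw [h6] at h7
    exact absurd h4 (not_lt.mpr h7)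
  · exact h3
  · exfalso
    have hp1 : p.1 x < 1 := by
      have := p.1.strictMono h'
      rwa [p.2.2.1 1 le_rfl] at this
    obtain ⟨y, hy, h4, h5⟩ := exists_dyadic h3
    have h6 := hcon y hy (h.trans h4) (h5.trans hp1)
    have h7 := p.1.monotone h4.le
    rw [h6] at h7
    exact absurd h5 (not_lt.mpr h7)

theorem ff_small {x : ℝ} (h : 0 ≤ x) (h' : x ≤ 1 / 4) : ff.1 x = 2 * x := by
  have h1 : ff.1 x = 2 * x - 0 := th2 (by norm_num) h (by linarith)
  rw [h1]; ring

theorem ff_pow_small (a : ℕ) : ∀ x : ℝ, 0 ≤ x → x * 2 ^ a ≤ 1 / 2 → (ff ^ a).1 x = x * 2 ^ a := by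
  induction a with
  | zero => intro x _ _; simp [one_ap]
  | succ a ih =>
    intro x hx h
    rw [pow_succ] at h
    have hp : (0 : ℝ) < 2 ^ a := by positivity
    have h1 := ih x hx (by nlinarith [mul_nonneg hx hp.le])
    rw [pow_succ' ff a, smul_ap, h1, ff_small (mul_nonneg hx hp.le) (by linarith)]
    rw [pow_succ]
    ring

theorem ff_pow_half (b : ℕ) : (ff ^ b).1 (1 / 2) = 1 - 1 / 2 ^ (b + 1) := by
  induction b with
  | zero => simp [one_ap]; norm_num
  | succ b ih =>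
    have h2 : (1 : ℝ) / 2 ^ (b + 1) ≤ 1 / 2 := by
      rw [pow_succ]
      have : (1 : ℝ) ≤ 2 ^ b := one_le_pow₀ (by norm_num)
      rw [div_le_div_iff₀ (by positivity) (by norm_num)]
      linarith
    have h3 : (0 : ℝ) < 1 / 2 ^ (b + 1) := by positivity
    have h1 : ff.1 (1 - 1 / 2 ^ (b + 1)) = ((1 - 1 / 2 ^ (b + 1)) + 1) / 2 :=
      th4 (by norm_num) (by linarith) (by linarith)
    rw [pow_succ' ff b, smul_ap, ih, h1, pow_succ (2 : ℝ) (b + 1)]
    field_simp
    ring

theorem not_confined : ¬ Confined HH := by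
  classical
  rintro ⟨P, hP1, hP⟩
  have hmoved : ∀ p ∈ P, ∃ x, Dyadic x ∧ 0 < x ∧ x < 1 ∧ p.1 x ≠ x := by
    intro p hp
    apply exists_moved
    rintro rfl
    exact hP1 hp
  choose! X hX1 hX2 hX3 hX4 using hmoved
  -- choose `b`
  have hb : ∀ᶠ b : ℕ in Filter.atTop, ∀ p ∈ P, X p ≤ (ff ^ b).1 (1 / 2) := by
    rw [Filter.eventually_all_finset]
    intro p hp
    have h1 : 0 < 1 - X p := by linarith [hX3 p hp]
    obtain ⟨b0, hb0⟩ := pow_unbounded_of_one_lt (1 / (1 - X p)) (by norm_num : (1 : ℝ) < 2)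
    filter_upwards [Filter.eventually_ge_atTop b0] with b hb
    rw [ff_pow_half]
    have h2 : (2 : ℝ) ^ b0 ≤ 2 ^ (b + 1) := pow_le_pow_right₀ (by norm_num) (by omega)
    have h3 : 1 / (1 - X p) < 2 ^ (b + 1) := hb0.trans_le h2
    have h4 : 1 / 2 ^ (b + 1) < 1 - X p := by
      rw [div_lt_iff₀ h1] at h3
      rw [div_lt_iff₀ (by positivity)]
      linarith
    linarith
  obtain ⟨b, hb⟩ := hb.exists
  set Y : ThF → ℝ := fun p => ((ff ^ b)⁻¹).1 (X p) with hY
  have hYd : ∀ p ∈ P, Dyadic (Y p) := fun p hp => IsThompson.dyadic (ff ^ b)⁻¹.2 (hX1 p hp)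
  have hY0 : ∀ p ∈ P, 0 < Y p := by
    intro p hp
    have := ((ff ^ b)⁻¹).1.strictMono (hX2 p hp)
    rwa [((ff ^ b)⁻¹).2.1 0 le_rfl] at this
  have hY1 : ∀ p ∈ P, Y p ≤ 1 / 2 := by
    intro p hp
    have := ((ff ^ b)⁻¹).1.monotone (hb p hp)
    rwa [sinv_ap] at this
  -- choose `i`
  have hi : ∀ᶠ i : ℕ in Filter.atTop, ∀ p ∈ P, ∃ k : ℕ, 0 < k ∧ k ≤ 2 ^ i ∧
      Y p = k / 2 ^ (i + 1) := by
    rw [Filter.eventually_all_finset]
    intro p hp
    obtain ⟨a, n, han⟩ := hYd p hp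
    filter_upwards [Filter.eventually_ge_atTop n] with i hi
    obtain ⟨j, rfl⟩ := Nat.exists_eq_add_of_le hi
    have ha : 0 < a := by
      have h1 := hY0 p hp
      rw [han] at h1
      have h2 : (0 : ℝ) < a := by
        by_contra h3
        push Not at h3
        have : (a : ℝ) / 2 ^ n ≤ 0 := div_nonpos_of_nonpos_of_nonneg h3 (by positivity)
        linarith
      exact_mod_cast h2
    obtain ⟨a', rfl⟩ := Int.eq_ofNat_of_zero_le ha.le
    have hval : Y p = ((a' * 2 ^ (j + 1) : ℕ) : ℝ) / 2 ^ (n + j + 1) := by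
      rw [han]
      push_cast
      rw [show n + j + 1 = n + (j + 1) by ring, pow_add 2 n (j + 1)]
      field_simp
    refine ⟨a' * 2 ^ (j + 1), ?_, ?_, hval⟩
    · have : 0 < a' := by exact_mod_cast ha
      positivity
    · have h1 := hY1 p hp
      rw [hval, div_le_div_iff₀ (by positivity) (by norm_num)] at h1
      have h2 : ((a' * 2 ^ (j + 1) * 2 : ℕ) : ℝ) ≤ ((2 ^ (n + j + 1) : ℕ) : ℝ) := by
        push_cast
        push_cast at h1
        linarith
      have h3 : a' * 2 ^ (j + 1) * 2 ≤ 2 ^ (n + j + 1) := by exact_mod_cast h2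
      rw [pow_succ 2 (n + j)] at h3
      omega
  obtain ⟨i, hi⟩ := hi.exists
  -- the conjugating element
  obtain ⟨p, hp, h, hh, hph⟩ := hP (ff ^ b * ff ^ (2 ^ i))
  obtain ⟨k, hk0, hk, hYk⟩ := hi p hp
  have hsig : sig i k ∈ Sig := ⟨i, k, hk0, hk, rfl⟩
  have hsm : sig i k * 2 ^ (2 ^ i) = Y p := by
    rw [hYk, sig, pow_add]
    field_simp
  have h1 : (ff ^ b * ff ^ (2 ^ i)).1 (sig i k) = X p := by
    rw [smul_ap, ff_pow_small (2 ^ i) (sig i k) (by unfold sig; positivity)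
      (by rw [hsm]; exact hY1 p hp), hsm]
    exact sap_inv _ _
  apply hX4 p hp
  generalize X p = x at h1
  rw [hph, ← h1, smul_ap, smul_ap, sinv_ap, hh _ hsig]

end subgroup

/-- The answer to Q1 is negative: there is a non-confined subgroup `H` of Thompson's group `F`
such that for every finite generating set `S` and every `K`, for all but finitely many `n` the ball
of radius `K n` about the root of the Schreier graph `Γ(F, H)` contains no copy of the ball of
radius `n` of the Cayley graph. -/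
theorem result : ∃ H : Subgroup ThF, ¬ Confined H ∧
    ∀ S : Set ThF, S.Finite → Subgroup.closure S = ⊤ →
      ∀ K : ℕ, ∃ n0 : ℕ, ∀ n ≥ n0, ¬ HasCopy S H n (K * n) := by
  refine ⟨HH, not_confined, fun S hS hgen K => ?_⟩
  obtain ⟨n0, hn0⟩ := short_relation hS hgen K
  refine ⟨n0, fun n hn hcopy => ?_⟩
  obtain ⟨g, hg, hrel⟩ := hcopy.no_relation
  obtain ⟨k, hk1, hk2, hk3⟩ := hn0 n hn g hg
  exact hk1 (hrel k hk2 hk3)

end Pool.Agent.Results.MP_f4dda6_al.NoLinearCopies
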